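import Mathlib
import Pool.Agent.W905.SM.Main

set_option autoImplicit false

/-!
# The relation `(λ⁺, λ⁺, λ) → (cf λ)⁺` for a singular cardinal is not provable

Let `λ` be singular with cofinality `κ`, and let `g x`, `x < λ⁺`, be mutually generic subsets
of `κ`. Let `c y x < κ`, for `y < x < λ⁺`, be a function of the ground model such that fewer than
`λ` elements `y` below `x` satisfy `c y x ≤ i`, for all `x` and `i`. Let `y ∈ f x` if `y < x` and
`g x`, `g y` agree below `c y x`. Two values of `f` have fewer than `λ` elements in common, and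
there is no free set of size `κ⁺`.
-/

universe u

namespace Pool.Agent.Results.MP_38e082_lc.CohenNoFree

open Cardinal Set Pool.Agent.Helper669.Forcing Pool.Agent.Helper669.Forcing2
  Pool.Agent.W905.SM

theorem sizeGe_mono {P : Type u} [Preorder P] {X Y : Type u} {φ ψ : X → Set P} {p : P}
    (h : ∀ q ≤ p, ∀ x, q ∈ φ x → q ∈ ψ x) (hp : p ∈ SizeGe φ Y) : p ∈ SizeGe ψ Y := by
  refine mem_fex.2 fun q hq => ?_
  obtain ⟨r, hr, R, hR1, hR2, hR3⟩ := mem_fex.1 hp q hq
  refine ⟨r, hr, R, hR1, hR2, fun y x => mem_fimp.2 fun s hs hx => ?_⟩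
  obtain ⟨t, ht, h'⟩ := mem_fimp.1 (hR3 y x) s hs hx
  exact ⟨t, ht, h t (ht.trans (hs.trans (hr.trans hq))) x h'⟩

/-- Let `λ` be a singular cardinal, with `2 ^ μ ≤ cf λ` for all infinite `μ < cf λ` (no assumption
if `λ` has countable cofinality). Adding at least `λ⁺` subsets of `cf λ` preserves cardinals and
the regularity of `cf λ`, and forces that `(λ⁺, λ⁺, λ) → (cf λ)⁺` fails. It even forces that there
is `f` such that `f x` is a set of ordinals below `x` for all `x < λ⁺`, and `|f x ∩ f x'| < λ` for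
all `x ≠ x'`, without a free set of size `(cf λ)⁺`. -/
theorem result (lam : Cardinal.{u}) (hlam : lam.IsSingular)
    (hpow : ∀ μ : Cardinal.{u}, ℵ₀ ≤ μ → μ < lam.ord.cof → 2 ^ μ ≤ lam.ord.cof)
    (Λ : Type u) (hΛ : Order.succ lam ≤ #Λ) (p : AddForcing lam.ord.cof Λ) :
    p ∈ CardinalsPreserved.{u, u} (AddForcing lam.ord.cof Λ) ∧
    p ∈ StaysRegular (AddForcing lam.ord.cof Λ) lam.ord.cof ∧
    p ∈ fnot (Arrow (AddForcing lam.ord.cof Λ) (Order.succ lam) (Order.succ lam) lam
      (Order.succ lam.ord.cof)) ∧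
    p ∈ fex fun f : (Order.succ lam).ord.ToType → (Order.succ lam).ord.ToType →
        Set (AddForcing lam.ord.cof Λ) =>
      fand (fall fun x => fall fun y => fimp (meets (f x y)) (fground (y < x)))
        (fand (fall fun x => fall fun x' => fall fun _ : x ≠ x' =>
            SizeLt (fun y => fand (meets (f x y)) (meets (f x' y))) lam.ord.ToType)
          (fall fun H : (Order.succ lam).ord.ToType → Set (AddForcing lam.ord.cof Λ) =>
            fimp (Free f H)
              (SizeLt (fun x => meets (H x)) (Order.succ lam.ord.cof).ord.ToType))) := by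
  have hκ : lam.ord.cof.IsRegular := isRegular_cof (isSuccLimit_ord hlam.aleph0_le)
  have hpow' : ∀ μ < lam.ord.cof, 2 ^ μ ≤ lam.ord.cof := by
    intro μ hμ
    rcases lt_or_ge μ ℵ₀ with h | h
    · exact (power_lt_aleph0 (natCast_lt_aleph0) h).le.trans hκ.aleph0_le
    · exact hpow μ h hμ
  have hlt : lam.ord.cof < lam := hlam.cof_ord_lt
  obtain ⟨c, hc⟩ := exists_local hlam
  have hj : #(Order.succ lam).ord.ToType ≤ #Λ := by rwa [mk_ord_toType]
  obtain ⟨⟨j, hj⟩⟩ := hj
  have hfree : ∀ (H : (Order.succ lam).ord.ToType → Set (AddForcing lam.ord.cof Λ)) (q),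
      q ∈ Free (fname c j) H →
      q ∈ SizeLt (fun x => meets (H x)) (Order.succ lam.ord.cof).ord.ToType := by
    intro H q hq
    exact no_free c j hκ hpow' hj (by rw [mk_ord_toType]; exact Order.lt_succ _) H q hq
  have hinter : ∀ (x x' : (Order.succ lam).ord.ToType) (_ : x ≠ x')
      (q : AddForcing lam.ord.cof Λ),
      q ∈ SizeLt (fun y => fand (meets (fname c j x y)) (meets (fname c j x' y)))
        lam.ord.ToType := by
    intro x x' hne q
    exact sizeLt_inter c j hκ hpow' hlt hj hc hne (mk_ord_toType _) q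
  refine ⟨cardinalsPreserved hκ hpow' p, staysRegular hκ p, ?_, ?_⟩
  · intro q _ harrow
    have hyp : q ∈ fand (SetMapping (fname c j))
        (fand (fall fun x => SizeLt (fun y => meets (fname c j x y))
            (Order.succ lam).ord.ToType)
          (fall fun A : (Order.succ lam).ord.ToType → Set (AddForcing lam.ord.cof Λ) =>
            fimp (SizeIs (fun x => meets (A x)) (Order.succ lam).ord.ToType)
              (SizeLt (InAll (fname c j) A) lam.ord.ToType))) := by
      refine ⟨fun x r _ hr => absurd (lt_of_meets c j hr) (lt_irrefl x), fun x => ?_,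
        fun A => mem_fimp.2 fun r _ hA => ?_⟩
      · refine not_sizeGe (S := Iio x) hκ hpow' ?_ fun r _ y hy => lt_of_meets c j hy
        rw [mk_ord_toType]
        exact mul_lt_of_lt (hlam.aleph0_le.trans (Order.le_succ _)) (mk_Iio_lt' x)
          (hlt.trans (Order.lt_succ _))
      · have hnt : Nontrivial (Order.succ lam).ord.ToType := by
          rw [← one_lt_iff_nontrivial, mk_ord_toType]
          exact one_lt_aleph0.trans_le (hlam.aleph0_le.trans (Order.le_succ _))
        obtain ⟨s, hs, x, x', hne, hx, hx'⟩ := exists_two hnt hA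
        refine ⟨s, hs, fun t ht hge => ?_⟩
        refine hinter x x' hne t t le_rfl (sizeGe_mono (fun v hv y hy => ?_) hge)
        refine ⟨meets_of_dense fun w hw => ?_, meets_of_dense fun w hw => ?_⟩
        · obtain ⟨w', hw', h⟩ := mem_fimp.1 (hy x) w hw
            (down_meets _ _ hx w (hw.trans (hv.trans ht)))
          exact ⟨w', hw', h⟩
        · obtain ⟨w', hw', h⟩ := mem_fimp.1 (hy x') w hw
            (down_meets _ _ hx' w (hw.trans (hv.trans ht)))
          exact ⟨w', hw', h⟩
    obtain ⟨r, hr, h⟩ := mem_fimp.1 (harrow (fname c j)) q le_rfl hyp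
    obtain ⟨s, hs, H, hH1, hH2⟩ := mem_fex.1 h r le_rfl
    exact hfree H s hH2 s le_rfl (sizeGe_of_sizeIs hH1)
  · refine mem_fex.2 fun q _ => ⟨q, le_rfl, fname c j, ?_, ?_, ?_⟩
    · intro x y
      exact mem_fimp.2 fun r _ h => ⟨r, le_rfl, lt_of_meets c j h⟩
    · intro x x' hne
      exact hinter x x' hne q
    · intro H
      exact mem_fimp.2 fun r _ h => ⟨r, le_rfl, hfree H r h⟩

end Pool.Agent.Results.MP_38e082_lc.CohenNoFree
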